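import Pool.Agent.Q155.HookT.Main

set_option autoImplicit false

namespace Pool.Agent.Results.MP_6996b5_co.Monotone

open Q155.HookT

/-- For all `t ≥ 3` and `n ≥ 0`, `b_{t,2}(n) ≤ b_{t+1,2}(n)`. -/
theorem result (t n : ℕ) (ht : 3 ≤ t) : b2 t n ≤ b2 (t + 1) n := final t n ht

end Pool.Agent.Results.MP_6996b5_co.Monotone
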